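import Mathlib
import Pool.Agent.Helper58.PS.Defs
import Pool.Agent.Helper6.PW.Blk
import Pool.Agent.Helper6.PW.Omega
import Pool.Agent.Helper58.LT.NSCount

/-!
# PS-6: one dyadic block

`S1` (for every `i ≥ 2` the quotient `l/b` is not near `2i+1` or there are few large primes):
`Pool.Agent.Helper6.PW.blk`.  The others, for one of the finitely many `i ≤ U`: `idx_part`.
In `idx_part`: `w = ⌊τ l⌋₊`, the numbers failing NS are few (`NS_count`), the others are in case A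
(`#clu = 2 i`) or in case C (`#clu < 2 i`, and the small primes reach `2^(ε l)` as `n` is not critical).
-/

namespace Pool.Agent.Helper58.PS

open Finset Pool.Agent.Helper6.Lehmer Pool.Agent.Helper6.LehmerCount Pool.Agent.Helper58.LT
open Pool.Agent.Helper6.PW

/-- the statement of `classA` -/
def StA (r : ℕ) (ε : ℝ) : Prop :=
    ∃ τ₀ : ℝ, 0 < τ₀ ∧ ∃ δ : ℝ, 0 < δ ∧ ∃ l₀ : ℕ, ∀ (l W k α β : ℕ) (S : Finset ℕ),
      l₀ ≤ l → 1 ≤ W → (W : ℝ) ≤ τ₀ * l → ε * l ≤ β → |(l : ℝ) - (2 * r + 1) * β| ≤ W →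
      |(α : ℝ) - β| ≤ W →
      (∀ n ∈ S, Idx n k ∧ n ≤ 2 ^ l ∧ 2 ^ (l - 1) < n ∧ DataA n l W k r α β) →
      (#S : ℝ) ≤ (2 : ℝ) ^ ((1 / 2 - δ) * (l : ℝ))

/-- the statement of `classC` -/
def StC (ε : ℝ) : Prop :=
    ∃ τ₀ : ℝ, 0 < τ₀ ∧ ∃ δ : ℝ, 0 < δ ∧ ∃ l₀ : ℕ, ∀ (l W k μ ν θ' θ β : ℕ) (S : Finset ℕ),
      l₀ ≤ l → 1 ≤ W → (W : ℝ) ≤ τ₀ * l → ε * l ≤ θ → ε * l ≤ β → ConC l W μ ν θ' θ β →
      (∀ n ∈ S, Idx n k ∧ n ≤ 2 ^ l ∧ 2 ^ (l - 1) < n ∧ DataC n l W k μ ν θ' θ β) →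
      (#S : ℝ) ≤ (2 : ℝ) ^ ((1 / 2 - δ) * (l : ℝ))

/-- the statement of `bridge` -/
def StB (i : ℕ) : Prop := ∃ K : ℕ, 1 ≤ K ∧ ∃ ε₂ : ℝ, 0 < ε₂ ∧ ε₂ < 1 ∧
    ∃ τ₀ : ℝ, 0 < τ₀ ∧ ∀ (l b w k n P : ℕ), 1 ≤ w → (w : ℝ) ≤ τ₀ * l → Idx n k → n ≤ 2 ^ l →
      2 ^ (l - 1) < n → n.primeFactors.card ≤ w → ¬ NSfail n l w → IsP n P → 2 ^ b < P →
      P ≤ 2 ^ (b + 1) → |(l : ℝ) - (2 * i + 1) * b| ≤ ε₂ * b →
      i + 2 ≤ #(n.primeFactors.filter (fun q : ℕ => (2 : ℝ) ^ ((1 - ε₂) * b) ≤ (q : ℝ))) →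
      i + 2 ≤ #(clu n b (K * w)) ∧ #(clu n b (K * w)) ≤ 2 * i ∧
      |(l : ℝ) - (2 * i + 1) * b| ≤ K * w ∧
      (#(clu n b (K * w)) = 2 * i → ∃ α, α ≤ l ∧ |(α : ℝ) - b| ≤ K * w ∧
        DataA n l (K * w) k i α b) ∧
      (#(clu n b (K * w)) < 2 * i → ∃ μ ν θ' θ, μ ≤ l ∧ ν ≤ l ∧ θ' ≤ l ∧ θ ≤ l ∧
        ConC l (K * w) μ ν θ' θ b ∧ DataC n l (K * w) k μ ν θ' θ b ∧
        ∀ q ∈ n.primeFactors, q ∈ clu n b (K * w) ∨ q < 2 ^ (θ + 1))

/-- for large `l`, a polynomial is absorbed -/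
theorem poly_ev (A : ℝ) (C : ℕ) (δ : ℝ) (hδ : 0 < δ) : ∃ l₀ : ℕ, ∀ l : ℕ, l₀ ≤ l →
    A * ((l : ℝ) + 1) ^ C ≤ (2 : ℝ) ^ (δ * l) := by
  have hr : (1 : ℝ) < (2 : ℝ) ^ δ := Real.one_lt_rpow (by norm_num) hδ
  have hr0 : (0 : ℝ) < (2 : ℝ) ^ δ := by positivity
  have h1 := tendsto_pow_const_div_const_pow_of_one_lt C hr
  have hpos : (0 : ℝ) < 1 / ((|A| + 1) * (2 : ℝ) ^ δ) := by positivity
  have h2 := (h1.eventually (gt_mem_nhds hpos)).exists_forall_of_atTop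
  obtain ⟨n₀, h3⟩ := h2
  refine ⟨n₀, fun l hl => ?_⟩
  have h4 := h3 (l + 1) (by omega)
  have h5 : (0 : ℝ) < ((2 : ℝ) ^ δ) ^ (l + 1) := by positivity
  rw [div_lt_div_iff₀ h5 (by positivity), one_mul] at h4
  have h6 : ((2 : ℝ) ^ δ) ^ (l + 1) = (2 : ℝ) ^ (δ * l) * (2 : ℝ) ^ δ := by
    rw [pow_succ, ← Real.rpow_natCast ((2 : ℝ) ^ δ) l, ← Real.rpow_mul (by norm_num)]
  rw [h6, ← mul_assoc] at h4
  have h7 := lt_of_mul_lt_mul_right h4 hr0.le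
  push_cast at h7
  have h8 : 0 ≤ ((l : ℝ) + 1) ^ C := by positivity
  have h9 : A ≤ |A| + 1 := (le_abs_self A).trans (by linarith)
  nlinarith

/-- the numbers failing NS -/
theorem ns_part {l w : ℕ} {τ : ℝ} (hτ : 0 < τ) (hτ1 : τ ≤ 1) (hw : w = ⌊τ * (l : ℝ)⌋₊)
    (hw1 : 1 ≤ w) (S : Finset ℕ)
    (hS : ∀ n ∈ S, IsLehmer n ∧ n ≤ 2 ^ l ∧ n.primeFactors.card ≤ w ∧ NSfail n l w) :
    (#S : ℝ) ≤ 12000 * ((l : ℝ) + 1) ^ 6 * (2 : ℝ) ^ ((1 / 2 - τ) * (l : ℝ)) := by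
  have h1 := NS_count l w hw1 S hS
  have hl0 : (0 : ℝ) ≤ l := Nat.cast_nonneg _
  have hτl : 0 ≤ τ * (l : ℝ) := by positivity
  have hwle : (w : ℝ) ≤ τ * l := by rw [hw]; exact Nat.floor_le hτl
  have hwge : τ * (l : ℝ) < w + 1 := by rw [hw]; exact Nat.lt_floor_add_one _
  have hwl : (w : ℝ) ≤ (l : ℝ) + 1 := by nlinarith
  have hw0 : (0 : ℝ) ≤ w := Nat.cast_nonneg _
  have h2 : Real.exp (-(w : ℝ)) ≤ 3 * (2 : ℝ) ^ (-(τ * (l : ℝ))) := by
    have h3 : Real.exp (-(w : ℝ)) ≤ Real.exp 1 * Real.exp (-(τ * l) * Real.log 2) := by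
      rw [← Real.exp_add]
      refine Real.exp_le_exp.2 ?_
      have h4 : Real.log 2 ≤ 1 := by
        have := Real.log_two_lt_d9
        linarith
      nlinarith
    have h5 : Real.exp (-(τ * (l : ℝ)) * Real.log 2) = (2 : ℝ) ^ (-(τ * (l : ℝ))) := by
      rw [Real.rpow_def_of_pos (by norm_num)]
      congr 1
      ring
    rw [h5] at h3
    refine h3.trans (mul_le_mul_of_nonneg_right ?_ (by positivity))
    have := Real.exp_one_lt_d9
    linarith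
  have h6 : (w : ℝ) ^ 3 ≤ ((l : ℝ) + 1) ^ 3 := pow_le_pow_left₀ hw0 hwl 3
  calc (#S : ℝ) ≤ 4000 * (w : ℝ) ^ 3 * ((l : ℝ) + 1) ^ 3 * (2 : ℝ) ^ ((l : ℝ) / 2) *
      Real.exp (-(w : ℝ)) := h1
    _ ≤ 4000 * ((l : ℝ) + 1) ^ 3 * ((l : ℝ) + 1) ^ 3 * (2 : ℝ) ^ ((l : ℝ) / 2) *
      (3 * (2 : ℝ) ^ (-(τ * (l : ℝ)))) := by gcongr
    _ = 12000 * ((l : ℝ) + 1) ^ 6 * ((2 : ℝ) ^ ((l : ℝ) / 2) * (2 : ℝ) ^ (-(τ * (l : ℝ)))) := by ring
    _ = _ := by
      rw [← Real.rpow_add (by norm_num)]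
      congr 2
      ring

/-- the critical class: if the small primes are less than `2^(θ+1) ≤ 2^(ε l)` then `n` is critical -/
theorem crit_of {n l b W θ i : ℕ} {ε : ℝ} (hε : 0 < ε) (hε4 : ε ≤ 1 / 4) (hb : 3 ≤ b)
    (hW : (W : ℝ) ≤ ε / 2 * b) (hlb : |(l : ℝ) - (2 * i + 1) * b| ≤ W)
    (hc1 : i + 2 ≤ #(clu n b W)) (hc2 : #(clu n b W) < 2 * i)
    (hθ : 3 * (θ : ℝ) ≤ b + W) (hq : ∀ q ∈ n.primeFactors, q ∈ clu n b W ∨ q < 2 ^ (θ + 1))
    (hθl : (θ : ℝ) + 1 ≤ ε * l) : critB n l b ε := by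
  have hbR : (3 : ℝ) ≤ b := by exact_mod_cast hb
  have hb0 : (0 : ℝ) < b := by linarith
  have hεb : 0 < ε * b := by positivity
  have hεb4 : ε * b ≤ 1 / 4 * b := mul_le_mul_of_nonneg_right hε4 hb0.le
  have hlog : 1 / 2 ≤ Real.log 2 := by
    have := Real.log_two_gt_d9
    linarith
  have hfil : n.primeFactors.filter (fun q : ℕ => (2 : ℝ) ^ ((1 - ε) * b) ≤ (q : ℝ)) = clu n b W := by
    ext q
    constructor
    · intro h
      rw [mem_filter] at h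
      rcases hq q h.1 with h1 | h1
      · exact h1
      · exfalso
        have h2 : (q : ℝ) < (2 : ℝ) ^ ((θ : ℝ) + 1) := by
          have h3 : (q : ℝ) < (2 : ℝ) ^ (θ + 1) := by exact_mod_cast h1
          rw [← Real.rpow_natCast] at h3
          push_cast at h3
          exact h3
        have h4 : (2 : ℝ) ^ ((θ : ℝ) + 1) ≤ (2 : ℝ) ^ ((1 - ε) * b) := by
          refine Real.rpow_le_rpow_of_exponent_le (by norm_num) ?_
          linarith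
        linarith [h.2]
    · intro h
      rw [clu, mem_filter] at h
      rw [mem_filter]
      refine ⟨h.1, le_trans ?_ h.2⟩
      have h1 : (2 : ℝ) ^ b = Real.exp (b * Real.log 2) := by
        rw [← Real.rpow_natCast, Real.rpow_def_of_pos (by norm_num)]
        congr 1
        ring
      rw [h1, Real.rpow_def_of_pos (by norm_num), ← Real.exp_add]
      refine Real.exp_le_exp.2 ?_
      have h5 : ε * b * (1 / 2) ≤ ε * b * Real.log 2 := mul_le_mul_of_nonneg_left hlog hεb.le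
      nlinarith
  refine ⟨i, by omega, ?_, ?_, ?_, ?_⟩
  · have h1 : (l : ℝ) / b - (2 * i + 1) = ((l : ℝ) - (2 * i + 1) * b) / b := by
      field_simp
    rw [h1, abs_div, abs_of_pos hb0, div_lt_iff₀ hb0]
    nlinarith
  · rw [hfil]
    exact hc1
  · rw [hfil]
    exact hc2
  · intro q hqn
    rcases hq q hqn with h1 | h1
    · left
      rw [← hfil, mem_filter] at h1
      exact h1.2
    · right
      have h2 : (q : ℝ) < (2 : ℝ) ^ ((θ : ℝ) + 1) := by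
        have h3 : (q : ℝ) < (2 : ℝ) ^ (θ + 1) := by exact_mod_cast h1
        rw [← Real.rpow_natCast] at h3
        push_cast at h3
        exact h3
      exact h2.trans_le (Real.rpow_le_rpow_of_exponent_le (by norm_num) hθl)

/-- the block for one index `i` -/
theorem idx_part (i : ℕ) (hi : 2 ≤ i) (ε : ℝ) (hε : 0 < ε) (hε4 : ε ≤ 1 / 4) (U : ℝ) (hU : 1 ≤ U)
    (hA : StA i (1 / U)) (hC : StC (min (ε / 2) (1 / U))) (hB : StB i) :
    ∃ e : ℝ, 0 < e ∧ ∃ δ : ℝ, 0 < δ ∧ ∃ l₀ : ℕ, ∀ l b : ℕ,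
    l₀ ≤ l → (l : ℝ) ≤ U * b → |(l : ℝ) - (2 * i + 1) * b| ≤ e * b → ∀ S : Finset ℕ,
    (∀ n ∈ S, IsLehmer n ∧ 2 ^ (l - 1) < n ∧ n ≤ 2 ^ l ∧
      (∃ p, IsP n p ∧ 2 ^ b < p ∧ p ≤ 2 ^ (b + 1)) ∧
      i + 2 ≤ #(n.primeFactors.filter (fun q : ℕ => (2 : ℝ) ^ ((1 - e) * b) ≤ (q : ℝ))) ∧
      ¬ critB n l b ε) →
    (#S : ℝ) ≤ (2 : ℝ) ^ ((1 / 2 - δ) * (l : ℝ)) := by
  classical
  obtain ⟨τA, hτA, δA, hδA, lA, hA⟩ := hA
  obtain ⟨τC, hτC, δC, hδC, lC, hC⟩ := hC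
  obtain ⟨K, hK, e, he0, he1, τB, hτB, hB⟩ := hB
  have hU0 : 0 < U := by linarith
  have hKR : (1 : ℝ) ≤ K := by exact_mod_cast hK
  have hK0 : (0 : ℝ) < K := by linarith
  obtain ⟨τ, hτdef⟩ : ∃ τ, τ = min (min 1 τB) (min (min (τA / K) (τC / K)) (ε / (2 * K * U))) :=
    ⟨_, rfl⟩
  have hτ0 : 0 < τ := by
    rw [hτdef]
    refine lt_min (lt_min one_pos hτB) (lt_min (lt_min (by positivity) (by positivity)) (by positivity))
  have hτ1 : τ ≤ 1 := by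
    rw [hτdef]
    exact (min_le_left _ _).trans (min_le_left _ _)
  have hτ2 : τ ≤ τB := by
    rw [hτdef]
    exact (min_le_left _ _).trans (min_le_right _ _)
  have hτ3 : K * τ ≤ τA := by
    have : τ ≤ τA / K := by
      rw [hτdef]
      exact (min_le_right _ _).trans ((min_le_left _ _).trans (min_le_left _ _))
    rw [le_div_iff₀ hK0] at this
    linarith
  have hτ4 : K * τ ≤ τC := by
    have : τ ≤ τC / K := by
      rw [hτdef]
      exact (min_le_right _ _).trans ((min_le_left _ _).trans (min_le_right _ _))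
    rw [le_div_iff₀ hK0] at this
    linarith
  have hτ5 : K * τ * U ≤ ε / 2 := by
    have : τ ≤ ε / (2 * K * U) := by
      rw [hτdef]
      exact (min_le_right _ _).trans (min_le_right _ _)
    rw [le_div_iff₀ (by positivity)] at this
    linarith
  obtain ⟨δ, hδdef⟩ : ∃ δ, δ = min τ (min δA δC) / 2 := ⟨_, rfl⟩
  have hδ0 : 0 < δ := by
    rw [hδdef]
    have : 0 < min τ (min δA δC) := lt_min hτ0 (lt_min hδA hδC)
    linarith
  have hδ1 : 2 * δ ≤ τ := by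
    rw [hδdef]
    have : min τ (min δA δC) ≤ τ := min_le_left _ _
    linarith
  have hδ2 : 2 * δ ≤ δA := by
    rw [hδdef]
    have : min τ (min δA δC) ≤ δA := (min_le_right _ _).trans (min_le_left _ _)
    linarith
  have hδ3 : 2 * δ ≤ δC := by
    rw [hδdef]
    have : min τ (min δA δC) ≤ δC := (min_le_right _ _).trans (min_le_right _ _)
    linarith
  obtain ⟨lω, hω⟩ := omega_small (τ / 2) (by positivity)
  obtain ⟨l1, h1⟩ := poly_ev 12064 6 δ hδ0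
  obtain ⟨l2, hl2⟩ : ∃ l2 : ℕ, 2 / τ + 2 / ε + 3 * U ≤ l2 := exists_nat_ge _
  refine ⟨e, he0, δ, hδ0, lA + lC + lω + l1 + l2, fun l b hl hlU hlb S hS => ?_⟩
  have hl2' : 2 / τ + 2 / ε + 3 * U ≤ (l : ℝ) := hl2.trans (by exact_mod_cast (by omega : l2 ≤ l))
  have hτpos : 0 < 2 / τ := by positivity
  have hεpos : 0 < 2 / ε := by positivity
  have hl3 : 2 ≤ τ * l := by
    have : 2 / τ ≤ (l : ℝ) := by linarith
    rw [div_le_iff₀ hτ0] at this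
    linarith
  have hl4 : 2 ≤ ε * l := by
    have : 2 / ε ≤ (l : ℝ) := by linarith
    rw [div_le_iff₀ hε] at this
    linarith
  have hb3 : 3 ≤ b := by
    have h2 : U * 3 ≤ U * b := by linarith
    have h3 : (3 : ℝ) ≤ b := le_of_mul_le_mul_left h2 hU0
    exact_mod_cast h3
  have hbR : (3 : ℝ) ≤ b := by exact_mod_cast hb3
  have hl0 : (0 : ℝ) < l := by
    have : 0 < 3 * U := by positivity
    linarith
  obtain ⟨w, hw⟩ : ∃ w, w = ⌊τ * (l : ℝ)⌋₊ := ⟨_, rfl⟩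
  have hwle : (w : ℝ) ≤ τ * l := by rw [hw]; exact Nat.floor_le (by positivity)
  have hwge : τ * (l : ℝ) < w + 1 := by rw [hw]; exact Nat.lt_floor_add_one _
  have hw1 : 1 ≤ w := by
    have : (1 : ℝ) < w + 1 := by linarith
    have h2 : 1 < w + 1 := by exact_mod_cast this
    omega
  have hwl : w ≤ l := by
    have : (w : ℝ) ≤ l := by nlinarith
    exact_mod_cast this
  have hcardw : ∀ n ∈ S, n.primeFactors.card ≤ w := by
    intro n hn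
    obtain ⟨ha, _, hc, _⟩ := hS n hn
    have h2 := hω l n (by omega) ha.one_lt.le hc
    have h3 : (n.primeFactors.card : ℝ) ≤ w := by linarith
    exact_mod_cast h3
  have hKw1 : 1 ≤ K * w := Nat.mul_pos (by omega) (by omega)
  have hKwR : ((K * w : ℕ) : ℝ) = K * w := by push_cast; ring
  have hKwτ : (K : ℝ) * w ≤ K * τ * l := by
    have := mul_le_mul_of_nonneg_left hwle hK0.le
    linarith
  have hKwA : ((K * w : ℕ) : ℝ) ≤ τA * l := by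
    rw [hKwR]
    exact hKwτ.trans (mul_le_mul_of_nonneg_right hτ3 hl0.le)
  have hKwC : ((K * w : ℕ) : ℝ) ≤ τC * l := by
    rw [hKwR]
    exact hKwτ.trans (mul_le_mul_of_nonneg_right hτ4 hl0.le)
  have hKwb : ((K * w : ℕ) : ℝ) ≤ ε / 2 * b := by
    rw [hKwR]
    have h2 : K * τ * l ≤ K * τ * (U * b) := mul_le_mul_of_nonneg_left hlU (by positivity)
    have h3 : K * τ * U * b ≤ ε / 2 * b := mul_le_mul_of_nonneg_right hτ5 (by linarith)
    linarith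
  have hbU : 1 / U * l ≤ b := by
    rw [div_mul_eq_mul_div, div_le_iff₀ hU0]
    linarith
  have hbC : min (ε / 2) (1 / U) * l ≤ b :=
    (mul_le_mul_of_nonneg_right (min_le_right _ _) hl0.le).trans hbU
  -- the parts
  set T : ℝ := (2 : ℝ) ^ ((1 / 2 - 2 * δ) * (l : ℝ)) with hT
  have hT0 : 0 < T := by positivity
  have hmono : ∀ x : ℝ, 2 * δ ≤ x → (2 : ℝ) ^ ((1 / 2 - x) * (l : ℝ)) ≤ T := by
    intro x hx
    rw [hT]
    refine Real.rpow_le_rpow_of_exponent_le (by norm_num) ?_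
    exact mul_le_mul_of_nonneg_right (by linarith) hl0.le
  set S1 := S.filter (fun n => NSfail n l w) with hS1
  set PA : Finset (ℕ × ℕ) := range (l + 2) ×ˢ range (l + 1) with hPA
  set SA : ℕ × ℕ → Finset ℕ := fun z => S.filter (fun n => Idx n z.1 ∧
    |(l : ℝ) - (2 * i + 1) * b| ≤ ((K * w : ℕ) : ℝ) ∧ |(z.2 : ℝ) - b| ≤ ((K * w : ℕ) : ℝ) ∧
      DataA n l (K * w) z.1 i z.2 b) with hSA
  set PC : Finset (ℕ × ℕ × ℕ × ℕ × ℕ) := range (l + 2) ×ˢ (range (l + 1) ×ˢ (range (l + 1) ×ˢ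
    (range (l + 1) ×ˢ range (l + 1)))) with hPC
  set SC : ℕ × ℕ × ℕ × ℕ × ℕ → Finset ℕ := fun z => S.filter (fun n => Idx n z.1 ∧
    ConC l (K * w) z.2.1 z.2.2.1 z.2.2.2.1 z.2.2.2.2 b ∧ min (ε / 2) (1 / U) * l ≤ z.2.2.2.2 ∧
      DataC n l (K * w) z.1 z.2.1 z.2.2.1 z.2.2.2.1 z.2.2.2.2 b) with hSC
  have hcov : S ⊆ S1 ∪ PA.biUnion SA ∪ PC.biUnion SC := by
    intro n hn
    obtain ⟨hL, hn1, hn2, ⟨P, hP, hP1, hP2⟩, hfil, hcrit⟩ := hS n hn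
    by_cases hNS : NSfail n l w
    · exact mem_union_left _ (mem_union_left _ (mem_filter.2 ⟨hn, hNS⟩))
    obtain ⟨k, hk⟩ := exists_idx hL
    have hkl : k ≤ l + 1 := hk.index_le.trans (by have := hcardw n hn; omega)
    obtain ⟨c1, c2, c3, cA, cC⟩ := hB l b w k n P hw1 (hwle.trans (mul_le_mul_of_nonneg_right hτ2
      hl0.le)) hk hn2 hn1 (hcardw n hn) hNS hP hP1 hP2 hlb hfil
    rcases Nat.lt_or_ge #(clu n b (K * w)) (2 * i) with hlt | hge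
    · -- case C
      obtain ⟨μ, ν, θ', θ, hμ, hν, hθ', hθ, hcon, hdat, hsm⟩ := cC hlt
      refine mem_union_right _ (mem_biUnion.2 ⟨(k, μ, ν, θ', θ), ?_, ?_⟩)
      · simp only [hPC, mem_product, mem_range]
        omega
      · simp only [hSC, mem_filter]
        refine ⟨hn, hk, hcon, ?_, hdat⟩
        have h2 : ε * l < θ + 1 := by
          by_contra hno
          push Not at hno
          exact hcrit (crit_of hε hε4 hb3 hKwb (by rw [hKwR]; exact c3) c1 hlt hcon.third hsm hno)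
        have h3 : min (ε / 2) (1 / U) * l ≤ ε / 2 * l :=
          mul_le_mul_of_nonneg_right (min_le_left _ _) hl0.le
        linarith
    · -- case A
      obtain ⟨α, hα, hαb, hdat⟩ := cA (le_antisymm c2 hge)
      refine mem_union_left _ (mem_union_right _ (mem_biUnion.2 ⟨(k, α), ?_, ?_⟩))
      · simp only [hPA, mem_product, mem_range]
        omega
      · simp only [hSA, mem_filter]
        exact ⟨hn, hk, by rw [hKwR]; exact c3, by rw [hKwR]; exact hαb, hdat⟩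
  have hcard : (#S : ℝ) ≤ #S1 + ∑ z ∈ PA, (#(SA z) : ℝ) + ∑ z ∈ PC, (#(SC z) : ℝ) := by
    have h2 : #S ≤ #S1 + ∑ z ∈ PA, #(SA z) + ∑ z ∈ PC, #(SC z) :=
      (card_le_card hcov).trans ((card_union_le _ _).trans (add_le_add ((card_union_le _ _).trans
        (add_le_add le_rfl card_biUnion_le)) card_biUnion_le))
    exact_mod_cast h2
  have b1 : (#S1 : ℝ) ≤ 12000 * ((l : ℝ) + 1) ^ 6 * T := by
    refine (ns_part hτ0 hτ1 hw hw1 S1 ?_).trans ?_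
    · intro n hn
      rw [hS1, mem_filter] at hn
      obtain ⟨ha, _, hc, _⟩ := hS n hn.1
      exact ⟨ha, hc, hcardw n hn.1, hn.2⟩
    · exact mul_le_mul_of_nonneg_left (hmono τ hδ1) (by positivity)
  have b2 : ∀ z ∈ PA, (#(SA z) : ℝ) ≤ T := by
    intro z _
    rcases (SA z).eq_empty_or_nonempty with h2 | ⟨n, hn⟩
    · rw [h2, card_empty, Nat.cast_zero]
      exact hT0.le
    · have h3 := hn
      simp only [hSA, mem_filter] at h3
      refine (hA l (K * w) z.1 z.2 b (SA z) (by omega) hKw1 hKwA hbU h3.2.2.1 h3.2.2.2.1 ?_).trans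
        (hmono δA hδ2)
      intro m hm
      simp only [hSA, mem_filter] at hm
      obtain ⟨_, ha, hc, _⟩ := hS m hm.1
      exact ⟨hm.2.1, hc, ha, hm.2.2.2.2⟩
  have b3 : ∀ z ∈ PC, (#(SC z) : ℝ) ≤ T := by
    intro z _
    rcases (SC z).eq_empty_or_nonempty with h2 | ⟨n, hn⟩
    · rw [h2, card_empty, Nat.cast_zero]
      exact hT0.le
    · have h3 := hn
      simp only [hSC, mem_filter] at h3
      refine (hC l (K * w) z.1 z.2.1 z.2.2.1 z.2.2.2.1 z.2.2.2.2 b (SC z) (by omega) hKw1 hKwC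
        h3.2.2.2.1 hbC h3.2.2.1 ?_).trans (hmono δC hδ3)
      intro m hm
      simp only [hSC, mem_filter] at hm
      obtain ⟨_, ha, hc, _⟩ := hS m hm.1
      exact ⟨hm.2.1, hc, ha, hm.2.2.2.2⟩
  have hx1 : (1 : ℝ) ≤ (l : ℝ) + 1 := by linarith
  have cA : (#PA : ℝ) ≤ 2 * ((l : ℝ) + 1) ^ 6 := by
    rw [hPA, card_product, card_range, card_range]
    push_cast
    have h2 : ((l : ℝ) + 1) ^ 2 ≤ ((l : ℝ) + 1) ^ 6 := pow_le_pow_right₀ hx1 (by norm_num)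
    nlinarith
  have cC : (#PC : ℝ) ≤ 2 * ((l : ℝ) + 1) ^ 6 := by
    simp only [hPC, card_product, card_range]
    push_cast
    have h2 : ((l : ℝ) + 1) ^ 5 ≤ ((l : ℝ) + 1) ^ 6 := pow_le_pow_right₀ hx1 (by norm_num)
    have h3 : 0 < ((l : ℝ) + 1) ^ 4 := by positivity
    nlinarith
  have b2' : ∑ z ∈ PA, (#(SA z) : ℝ) ≤ 2 * ((l : ℝ) + 1) ^ 6 * T := by
    refine (Finset.sum_le_sum b2).trans ?_
    rw [Finset.sum_const, nsmul_eq_mul]
    exact mul_le_mul_of_nonneg_right cA hT0.le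
  have b3' : ∑ z ∈ PC, (#(SC z) : ℝ) ≤ 2 * ((l : ℝ) + 1) ^ 6 * T := by
    refine (Finset.sum_le_sum b3).trans ?_
    rw [Finset.sum_const, nsmul_eq_mul]
    exact mul_le_mul_of_nonneg_right cC hT0.le
  have hpos6 : 0 < ((l : ℝ) + 1) ^ 6 := by positivity
  have hpoly := h1 l (by omega)
  calc (#S : ℝ) ≤ (12064 * ((l : ℝ) + 1) ^ 6) * T := by nlinarith [mul_pos hpos6 hT0]
    _ ≤ (2 : ℝ) ^ (δ * l) * T := mul_le_mul_of_nonneg_right hpoly hT0.le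
    _ = (2 : ℝ) ^ ((1 / 2 - δ) * (l : ℝ)) := by
      rw [hT, ← Real.rpow_add (by norm_num)]
      congr 1
      ring

/-- the block for all indices `2 ≤ i ≤ I` -/
theorem idx_all (I : ℕ) (ε : ℝ) (hε : 0 < ε) (hε4 : ε ≤ 1 / 4) (U : ℝ) (hU : 1 ≤ U)
    (hA : ∀ i, 2 ≤ i → StA i (1 / U)) (hC : StC (min (ε / 2) (1 / U))) (hB : ∀ i, 2 ≤ i → StB i) :
    ∃ e : ℝ, 0 < e ∧ ∃ δ : ℝ, 0 < δ ∧ ∃ l₀ : ℕ, ∀ i : ℕ, 2 ≤ i → i ≤ I → ∀ l b : ℕ,
    l₀ ≤ l → (l : ℝ) ≤ U * b → |(l : ℝ) - (2 * i + 1) * b| ≤ e * b → ∀ S : Finset ℕ,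
    (∀ n ∈ S, IsLehmer n ∧ 2 ^ (l - 1) < n ∧ n ≤ 2 ^ l ∧
      (∃ p, IsP n p ∧ 2 ^ b < p ∧ p ≤ 2 ^ (b + 1)) ∧
      i + 2 ≤ #(n.primeFactors.filter (fun q : ℕ => (2 : ℝ) ^ ((1 - e) * b) ≤ (q : ℝ))) ∧
      ¬ critB n l b ε) →
    (#S : ℝ) ≤ (2 : ℝ) ^ ((1 / 2 - δ) * (l : ℝ)) := by
  induction I with
  | zero => exact ⟨1, one_pos, 1, one_pos, 0, fun i h1 h2 => by omega⟩
  | succ I ih =>
    obtain ⟨e, he, δ, hδ, l₀, h⟩ := ih
    by_cases hI : 2 ≤ I + 1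
    · obtain ⟨e', he', δ', hδ', l₀', h'⟩ := idx_part (I + 1) hI ε hε hε4 U hU (hA _ hI) hC (hB _ hI)
      refine ⟨min e e', lt_min he he', min δ δ', lt_min hδ hδ', max l₀ l₀', ?_⟩
      intro i h2 hiI l b hl hlU hlb S hS
      have hb0 : (0 : ℝ) ≤ b := Nat.cast_nonneg _
      have hl0 : (0 : ℝ) ≤ l := Nat.cast_nonneg _
      have hfil : ∀ e'' : ℝ, min e e' ≤ e'' → ∀ n ∈ S,
          i + 2 ≤ #(n.primeFactors.filter (fun q : ℕ => (2 : ℝ) ^ ((1 - e'') * b) ≤ (q : ℝ))) := by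
        intro e'' he'' n hn
        obtain ⟨_, _, _, _, h3, _⟩ := hS n hn
        refine h3.trans (card_le_card ?_)
        intro q hq
        rw [mem_filter] at hq ⊢
        refine ⟨hq.1, le_trans ?_ hq.2⟩
        refine Real.rpow_le_rpow_of_exponent_le (by norm_num) ?_
        exact mul_le_mul_of_nonneg_right (by linarith) hb0
      rcases Nat.lt_or_ge I i with h3 | h3
      · have h4 : i = I + 1 := by omega
        subst h4
        refine (h' l b ((le_max_right _ _).trans hl) hlU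
          (hlb.trans (mul_le_mul_of_nonneg_right (min_le_right _ _) hb0)) S ?_).trans ?_
        · intro n hn
          obtain ⟨a1, a2, a3, a4, _, a6⟩ := hS n hn
          exact ⟨a1, a2, a3, a4, hfil e' (min_le_right _ _) n hn, a6⟩
        · refine Real.rpow_le_rpow_of_exponent_le (by norm_num) ?_
          exact mul_le_mul_of_nonneg_right (by linarith [min_le_right δ δ']) hl0
      · refine (h i h2 h3 l b ((le_max_left _ _).trans hl) hlU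
          (hlb.trans (mul_le_mul_of_nonneg_right (min_le_left _ _) hb0)) S ?_).trans ?_
        · intro n hn
          obtain ⟨a1, a2, a3, a4, _, a6⟩ := hS n hn
          exact ⟨a1, a2, a3, a4, hfil e (min_le_left _ _) n hn, a6⟩
        · refine Real.rpow_le_rpow_of_exponent_le (by norm_num) ?_
          exact mul_le_mul_of_nonneg_right (by linarith [min_le_left δ δ']) hl0
    · exact ⟨1, one_pos, 1, one_pos, 0, fun i h1 h2 => by omega⟩

/-- PS-6 from the statements of PS-2, PS-3 and PS-5 -/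
theorem blk2_of (hA : ∀ (r : ℕ), 2 ≤ r → ∀ ε : ℝ, 0 < ε → StA r ε)
    (hC : ∀ ε : ℝ, 0 < ε → StC ε) (hB : ∀ i, 2 ≤ i → StB i)
    (ε : ℝ) (hε : 0 < ε) (hε4 : ε ≤ 1 / 4) (U : ℝ) (hU : 1 ≤ U) :
    ∃ δ : ℝ, 0 < δ ∧ ∃ l₀ : ℕ, ∀ l b : ℕ,
    l₀ ≤ l → (l : ℝ) ≤ U * b → ∀ S : Finset ℕ,
    (∀ n ∈ S, IsLehmer n ∧ 2 ^ (l - 1) < n ∧ n ≤ 2 ^ l ∧
      (∃ p, IsP n p ∧ 2 ^ b < p ∧ p ≤ 2 ^ (b + 1)) ∧ ¬ critB n l b ε) →
    (#S : ℝ) ≤ (2 : ℝ) ^ ((1 / 2 - δ) * (l : ℝ)) := by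
  classical
  have hU0 : 0 < U := by linarith
  obtain ⟨I, hI⟩ : ∃ I : ℕ, U + 1 ≤ I := exists_nat_ge _
  obtain ⟨e', he', δ₁, hδ₁, l₁, h1⟩ := idx_all I ε hε hε4 U hU
    (fun i hi => hA i hi _ (by positivity)) (hC _ (lt_min (by positivity) (by positivity))) hB
  -- make `e` at most one
  obtain ⟨e, hedef⟩ : ∃ e, e = min e' 1 := ⟨_, rfl⟩
  have he : 0 < e := by rw [hedef]; exact lt_min he' one_pos
  have hee : e ≤ e' := by rw [hedef]; exact min_le_left _ _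
  have he1 : e ≤ 1 := by rw [hedef]; exact min_le_right _ _
  obtain ⟨δ₂, hδ₂, l₂, h2⟩ := blk e he U hU
  obtain ⟨δ, hδdef⟩ : ∃ δ, δ = min δ₁ δ₂ / 2 := ⟨_, rfl⟩
  have hδ0 : 0 < δ := by
    rw [hδdef]
    have : 0 < min δ₁ δ₂ := lt_min hδ₁ hδ₂
    linarith
  have hδ1 : 2 * δ ≤ δ₁ := by
    rw [hδdef]
    have := min_le_left δ₁ δ₂
    linarith
  have hδ2 : 2 * δ ≤ δ₂ := by
    rw [hδdef]
    have := min_le_right δ₁ δ₂
    linarith
  obtain ⟨l₃, h3⟩ := poly_ev ((I : ℝ) + 2) 0 δ hδ0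
  refine ⟨δ, hδ0, l₁ + l₂ + l₃ + 1, fun l b hl hlU S hS => ?_⟩
  have hl0 : (0 : ℝ) < l := by exact_mod_cast (by omega : 0 < l)
  have hb0 : (0 : ℝ) < b := by
    by_contra hno
    push Not at hno
    have : U * (b : ℝ) ≤ 0 := mul_nonpos_of_nonneg_of_nonpos hU0.le hno
    linarith
  set T : ℝ := (2 : ℝ) ^ ((1 / 2 - 2 * δ) * (l : ℝ)) with hT
  have hT0 : 0 < T := by positivity
  have hmono : ∀ x : ℝ, 2 * δ ≤ x → (2 : ℝ) ^ ((1 / 2 - x) * (l : ℝ)) ≤ T := by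
    intro x hx
    rw [hT]
    refine Real.rpow_le_rpow_of_exponent_le (by norm_num) ?_
    exact mul_le_mul_of_nonneg_right (by linarith) hl0.le
  set S1 := S.filter (fun n => ∀ i : ℕ, 2 ≤ i → e ≤ |(l : ℝ) / b - (2 * i + 1)| ∨
    #(n.primeFactors.filter (fun q : ℕ => (2 : ℝ) ^ ((1 - e) * b) ≤ (q : ℝ))) < i + 2) with hS1
  set S2 : ℕ → Finset ℕ := fun i => S.filter (fun n => 2 ≤ i ∧
    |(l : ℝ) / b - (2 * i + 1)| < e ∧
    i + 2 ≤ #(n.primeFactors.filter (fun q : ℕ => (2 : ℝ) ^ ((1 - e) * b) ≤ (q : ℝ)))) with hS2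
  have hcov : S ⊆ S1 ∪ (range (I + 1)).biUnion S2 := by
    intro n hn
    by_cases hc : ∀ i : ℕ, 2 ≤ i → e ≤ |(l : ℝ) / b - (2 * i + 1)| ∨
        #(n.primeFactors.filter (fun q : ℕ => (2 : ℝ) ^ ((1 - e) * b) ≤ (q : ℝ))) < i + 2
    · exact mem_union_left _ (mem_filter.2 ⟨hn, hc⟩)
    · push Not at hc
      obtain ⟨i, hi2, hi3, hi4⟩ := hc
      refine mem_union_right _ (mem_biUnion.2 ⟨i, ?_, mem_filter.2 ⟨hn, hi2, hi3, hi4⟩⟩)
      rw [mem_range]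
      have h4 : (l : ℝ) / b ≤ U := by
        rw [div_le_iff₀ hb0]
        exact hlU
      have h5 := (abs_lt.1 hi3).1
      have h6 : (i : ℝ) ≤ I := by
        have : (0 : ℝ) ≤ i := Nat.cast_nonneg _
        linarith
      have h7 : i ≤ I := by exact_mod_cast h6
      omega
  have hcard : (#S : ℝ) ≤ #S1 + ∑ i ∈ range (I + 1), (#(S2 i) : ℝ) := by
    have h4 : #S ≤ #S1 + ∑ i ∈ range (I + 1), #(S2 i) :=
      (card_le_card hcov).trans ((card_union_le _ _).trans (add_le_add le_rfl card_biUnion_le))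
    exact_mod_cast h4
  have b1 : (#S1 : ℝ) ≤ T := by
    refine (h2 l b (by omega) hlU S1 ?_).trans (hmono δ₂ hδ2)
    intro n hn
    rw [hS1, mem_filter] at hn
    obtain ⟨a1, a2, a3, a4, _⟩ := hS n hn.1
    exact ⟨a1, a2, a3, a4, hn.2⟩
  have b2 : ∀ i ∈ range (I + 1), (#(S2 i) : ℝ) ≤ T := by
    intro i hi
    rw [mem_range] at hi
    rcases (S2 i).eq_empty_or_nonempty with h4 | ⟨n, hn⟩
    · rw [h4, card_empty, Nat.cast_zero]
      exact hT0.le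
    · simp only [hS2, mem_filter] at hn
      have h5 : |(l : ℝ) - (2 * i + 1) * b| ≤ e' * b := by
        have h6 : (l : ℝ) - (2 * i + 1) * b = ((l : ℝ) / b - (2 * i + 1)) * b := by
          field_simp
        rw [h6, abs_mul, abs_of_pos hb0]
        exact mul_le_mul_of_nonneg_right (hn.2.2.1.le.trans hee) hb0.le
      refine (h1 i hn.2.1 (by omega) l b (by omega) hlU h5 (S2 i) ?_).trans (hmono δ₁ hδ1)
      intro m hm
      simp only [hS2, mem_filter] at hm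
      obtain ⟨a1, a2, a3, a4, a5⟩ := hS m hm.1
      refine ⟨a1, a2, a3, a4, hm.2.2.2.trans (card_le_card ?_), a5⟩
      intro q hq
      rw [mem_filter] at hq ⊢
      refine ⟨hq.1, le_trans ?_ hq.2⟩
      refine Real.rpow_le_rpow_of_exponent_le (by norm_num) ?_
      exact mul_le_mul_of_nonneg_right (by linarith) hb0.le
  have b2' : ∑ i ∈ range (I + 1), (#(S2 i) : ℝ) ≤ ((I : ℝ) + 1) * T := by
    refine (Finset.sum_le_sum b2).trans (le_of_eq ?_)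
    rw [Finset.sum_const, nsmul_eq_mul, card_range]
    push_cast
    ring
  have hpoly := h3 l (by omega)
  rw [pow_zero, mul_one] at hpoly
  calc (#S : ℝ) ≤ ((I : ℝ) + 2) * T := by linarith
    _ ≤ (2 : ℝ) ^ (δ * l) * T := mul_le_mul_of_nonneg_right hpoly hT0.le
    _ = (2 : ℝ) ^ ((1 / 2 - δ) * (l : ℝ)) := by
      rw [hT, ← Real.rpow_add (by norm_num)]
      congr 1
      ring

end Pool.Agent.Helper58.PS
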