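import Mathlib
import Pool.Agent.Helper58.PS.Defs
import Pool.Agent.Helper58.LT.Spacing
import Pool.Agent.Helper58.LT.Convex
import Pool.Agent.Helper13.PS.HMs
import Pool.Agent.Helper84.CB.Count
import Pool.Agent.Helper84.CB.Inject

/-!
# PS-3: case C

As `LT/ClassB`: `N = 2^(β+4W+4)`, `Q = 2^θ`, `𝒬` = primes in `[2^θ, 2^{θ+1})`, `𝓑` = squarefree positive
integers `≤ R = 2^{(β-θ')/2} e^W`, `HMs` with a fixed `κ ≥ 8 + 12/ε`, `s = κ^3`.
-/

namespace Pool.Agent.Helper77.PS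

open Finset Pool.Agent.Helper6.Lehmer Pool.Agent.Helper6.LehmerCount Pool.Agent.Helper58.LT
open Pool.Agent.Helper58.PS Pool.Agent.Helper84.CB

theorem cc_exp (n : ℕ) : (2 : ℝ) ^ n = Real.exp (n * Real.log 2) := by
  rw [← Real.rpow_natCast, Real.rpow_def_of_pos (by norm_num), mul_comm]

theorem cc_exp' (t : ℝ) : (2 : ℝ) ^ t = Real.exp (t * Real.log 2) := by
  rw [Real.rpow_def_of_pos (by norm_num), mul_comm]

/-- `ψ` is injective on the squarefree numbers up to `R`, `2 R ^ 2 ≤ N` -/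
theorem cc_inj (R : ℝ) (hR : 0 ≤ R) (N : ℕ) (hN : 2 * R ^ 2 ≤ N) :
    Js (Bs R) (psi N) 1 ≤ #(Bs R) := by
  classical
  unfold Js en
  refine card_le_card_of_injOn (fun z => z.1 0) ?_ ?_
  · rintro ⟨x, y⟩ hz
    simp only [coe_filter, mem_product, Set.mem_ofPred_eq] at hz
    exact mem_coe.2 (mem_tup.1 hz.1.1 0)
  · have key : ∀ x y : Fin 1 → ℕ, x ∈ tup (Bs R) 1 → y ∈ tup (Bs R) 1 →
        sm' (psi N) x = sm' (psi N) y → x = y := by
      intro x y hx hy h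
      have hx0 := mem_tup.1 hx 0
      have hy0 := mem_tup.1 hy 0
      unfold Bs at hx0 hy0
      rw [mem_filter, mem_Icc] at hx0 hy0
      have h1 : ∏ i, x i = ∏ i, y i := by
        refine spacing_psi (Z := R ^ 2) x y ?_ ?_ le_rfl ?_ ?_ h
        · intro i
          rw [Subsingleton.elim i 0]
          exact hx0.2
        · intro i
          rw [Subsingleton.elim i 0]
          exact hy0.2
        · rw [univ_unique, prod_singleton, prod_singleton, sq]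
          have a1 : ((x default : ℕ) : ℝ) ≤ R := (Nat.le_floor_iff hR).1 hx0.1.2
          have a2 : ((y default : ℕ) : ℝ) ≤ R := (Nat.le_floor_iff hR).1 hy0.1.2
          exact mul_le_mul a1 a2 (Nat.cast_nonneg _) hR
        · push_cast
          linarith
      rw [univ_unique, prod_singleton, prod_singleton] at h1
      funext i
      rw [Subsingleton.elim i 0]
      exact h1
    rintro ⟨x, y⟩ hz ⟨x', y'⟩ hz' heq
    simp only [coe_filter, mem_product, Set.mem_ofPred_eq] at hz hz'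
    have e1 := key x y hz.1.1 hz.1.2 hz.2
    have e2 := key x' y' hz'.1.1 hz'.1.2 hz'.2
    have e3 : x = x' := by
      funext i
      rw [Subsingleton.elim i 0]
      exact heq
    rw [← e1, ← e2, e3]

theorem cc_card (R : ℝ) (hR : 0 ≤ R) : (#(Bs R) : ℝ) ≤ R := by
  classical
  unfold Bs
  have h1 : #((Icc 1 ⌊R⌋₊).filter Squarefree) ≤ ⌊R⌋₊ := by
    refine (card_filter_le _ _).trans ?_
    rw [Nat.card_Icc]
    omega
  exact le_trans (by exact_mod_cast h1) (Nat.floor_le hR)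

/-- `ψ` agrees with `psq` on the primes -/
theorem cc_js (θ N s : ℕ) : Js (Qs θ) (psi N) s =
    Js (Qs θ) (Pool.Agent.Helper73.HM.psq N) s := by
  unfold Js en
  congr 1
  refine filter_congr ?_
  rintro ⟨x, y⟩ hz
  rw [mem_product] at hz
  have key : ∀ x : Fin s → ℕ, x ∈ tup (Qs θ) s →
      sm' (psi N) x = sm' (Pool.Agent.Helper73.HM.psq N) x := by
    intro x hx
    unfold sm'
    refine sum_congr rfl fun i _ => ?_
    have h1 := mem_tup.1 hx i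
    unfold Qs at h1
    exact psi_prime (mem_filter.1 h1).2
  simp only
  rw [key x hz.1, key y hz.2]

theorem card_S_leC (l W k μ ν θ' θ β : ℕ) (S : Finset ℕ)
    (hS : ∀ n ∈ S, Idx n k ∧ n ≤ 2 ^ l ∧ DataC n l W k μ ν θ' θ β) (M : ℝ)
    (hM : ∀ (v : ℝ) (T : Finset (ℕ × ℕ × ℕ)), (∀ z ∈ T,
      z ∈ Qs θ ×ˢ Bs ((2 : ℝ) ^ (((β : ℝ) - θ') / 2) * Real.exp W) ×ˢ
        Bs ((2 : ℝ) ^ (((β : ℝ) - θ') / 2) * Real.exp W) ∧
      v - Real.exp W / (2 : ℝ) ^ β < lam z.1 + lam z.2.1 + lam z.2.2 ∧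
      lam z.1 + lam z.2.1 + lam z.2.2 < v) → (#T : ℝ) ≤ M) :
    (#S : ℝ) ≤ #(Lset k W ((2 : ℝ) ^ θ') (2 ^ μ)) * 2 ^ ν * M := by
  classical
  have hdata : ∀ n ∈ S, ∃ m g q b₁ b₂ f : ℕ, n = m * g * q * b₁ * b₂ * f ∧
      m ∈ Lset k W ((2 : ℝ) ^ θ') (2 ^ μ) ∧
      2 ^ ν ≤ g ∧ g < 2 ^ (ν + 1) ∧ q.Prime ∧ 2 ^ θ ≤ q ∧ q < 2 ^ (θ + 1) ∧
      (b₁ : ℝ) ≤ (2 : ℝ) ^ (((β : ℝ) - θ') / 2) * Real.exp W ∧
      (b₂ : ℝ) ≤ (2 : ℝ) ^ (((β : ℝ) - θ') / 2) * Real.exp W ∧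
      1 < f ∧ 2 ^ l ≤ (m * g * q * b₁ * b₂) ^ 2 ∧
      Real.log k - Real.exp W / (2 : ℝ) ^ β < lam (m * g * q * b₁ * b₂) :=
    fun n hn => (hS n hn).2.2
  choose! m g q b₁ b₂ f h1 h2 h3 h4 h5 h6 h7 h8 h9 h10 h11 h12 using hdata
  have hpos : ∀ n ∈ S, 0 < m n * g n * q n * b₁ n * b₂ n := by
    intro n hn
    have h0 : 0 < n := by
      have := (hS n hn).1.lehmer.one_lt
      omega
    rw [h1 n hn] at h0
    exact Nat.pos_of_mul_pos_right h0
  have hdvd : ∀ n ∈ S, m n * g n * q n * b₁ n * b₂ n ∣ n := by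
    intro n hn
    exact ⟨f n, h1 n hn⟩
  have hlt : ∀ n ∈ S, m n * g n * q n * b₁ n * b₂ n < n := by
    intro n hn
    conv_rhs => rw [h1 n hn]
    exact lt_mul_of_one_lt_right (hpos n hn) (h10 n hn)
  have hsq : ∀ n ∈ S, Squarefree (m n * g n * q n * b₁ n * b₂ n) := fun n hn =>
    (hS n hn).1.lehmer.squarefree.squarefree_of_dvd (hdvd n hn)
  have hmaps : ∀ n ∈ S, (m n, g n) ∈
      Lset k W ((2 : ℝ) ^ θ') (2 ^ μ) ×ˢ Ico (2 ^ ν) (2 ^ (ν + 1)) := by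
    intro n hn
    exact mem_product.2 ⟨h2 n hn, mem_Ico.2 ⟨h3 n hn, h4 n hn⟩⟩
  have hcard := card_eq_sum_card_fiberwise hmaps
  have hfib : ∀ y ∈ Lset k W ((2 : ℝ) ^ θ') (2 ^ μ) ×ˢ Ico (2 ^ ν) (2 ^ (ν + 1)),
      (#{n ∈ S | (m n, g n) = y} : ℝ) ≤ M := by
    intro y _
    have hinj : Set.InjOn (fun n => (q n, b₁ n, b₂ n))
        (({n ∈ S | (m n, g n) = y} : Finset ℕ) : Set ℕ) := by
      intro n hn n' hn' heq
      rw [mem_coe, mem_filter] at hn hn'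
      simp only [Prod.mk.injEq] at heq
      obtain ⟨e1, e2, e3⟩ := heq
      have e4 := hn.2.trans hn'.2.symm
      simp only [Prod.mk.injEq] at e4
      have hD : m n * g n * q n * b₁ n * b₂ n = m n' * g n' * q n' * b₁ n' * b₂ n' := by
        rw [e1, e2, e3, e4.1, e4.2]
      refine eq_of_divisor (X := 2 ^ l) (hS n hn.1).1 (hS n' hn'.1).1 (hS n hn.1).2.1
        (hS n' hn'.1).2.1 (hdvd n hn.1) ?_ (hlt n hn.1) ?_ (h11 n hn.1)
      · rw [hD]
        exact hdvd n' hn'.1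
      · rw [hD]
        exact hlt n' hn'.1
    rw [← card_image_of_injOn hinj]
    apply hM (Real.log k - lam y.1 - lam y.2)
    intro z hz
    obtain ⟨n, hn, rfl⟩ := mem_image.1 hz
    rw [mem_filter] at hn
    obtain ⟨hn, rfl⟩ := hn
    have hb1 : 0 < b₁ n := by
      have := hpos n hn
      exact Nat.pos_of_mul_pos_left (Nat.pos_of_mul_pos_right this)
    have hb2 : 0 < b₂ n := Nat.pos_of_mul_pos_left (hpos n hn)
    have hl := lam_five (hsq n hn)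
    have hl2 := lam_lt (hS n hn).1 (hdvd n hn) (hlt n hn)
    have hl3 := h12 n hn
    refine ⟨mem_product.2 ⟨?_, mem_product.2 ⟨?_, ?_⟩⟩, ?_, ?_⟩
    · exact mem_filter.2 ⟨mem_Ico.2 ⟨h6 n hn, h7 n hn⟩, h5 n hn⟩
    · refine mem_filter.2 ⟨mem_Icc.2 ⟨hb1, Nat.le_floor (h8 n hn)⟩, ?_⟩
      refine (hsq n hn).squarefree_of_dvd ?_
      exact (dvd_mul_left _ _).trans (dvd_mul_right _ _)
    · refine mem_filter.2 ⟨mem_Icc.2 ⟨hb2, Nat.le_floor (h9 n hn)⟩, ?_⟩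
      exact (hsq n hn).squarefree_of_dvd (dvd_mul_left _ _)
    · simp only
      linarith
    · simp only
      linarith
  calc (#S : ℝ) = ∑ y ∈ Lset k W ((2 : ℝ) ^ θ') (2 ^ μ) ×ˢ Ico (2 ^ ν) (2 ^ (ν + 1)),
        (#{n ∈ S | (m n, g n) = y} : ℝ) := by
        rw [hcard]
        push_cast
        rfl
    _ ≤ ∑ _y ∈ Lset k W ((2 : ℝ) ^ θ') (2 ^ μ) ×ˢ Ico (2 ^ ν) (2 ^ (ν + 1)), M := sum_le_sum hfib
    _ = #(Lset k W ((2 : ℝ) ^ θ') (2 ^ μ)) * 2 ^ ν * M := by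
        rw [sum_const, card_product, Nat.card_Ico, nsmul_eq_mul]
        have : 2 ^ (ν + 1) - 2 ^ ν = 2 ^ ν := by
          rw [pow_succ]
          omega
        rw [this]
        push_cast
        ring

/-- the factor from the window: `24 W^2 (w + 4) ≤ e^(7W+9)` -/
theorem cc_window (W : ℕ) (hW : 1 ≤ W) :
    24 * (W : ℝ) ^ 2 * (Real.exp W * 2 ^ (4 * W + 4) + 4) ≤ Real.exp (7 * W + 9) := by
  have hWR : (1 : ℝ) ≤ W := by exact_mod_cast hW
  have e1 : (2.7182818283 : ℝ) < Real.exp 1 := Real.exp_one_gt_d9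
  have h24 : (24 : ℝ) ≤ Real.exp 4 := by
    have h1 : Real.exp 4 = Real.exp 1 ^ 4 := by
      rw [← Real.exp_nat_mul]
      norm_num
    rw [h1]
    have h2 : (2.7 : ℝ) ^ 4 ≤ Real.exp 1 ^ 4 := pow_le_pow_left₀ (by norm_num) (by linarith) 4
    have h3 : (24 : ℝ) ≤ (2.7 : ℝ) ^ 4 := by norm_num
    linarith
  have hW2 : (W : ℝ) ^ 2 ≤ Real.exp (2 * W) := by
    have h1 : (W : ℝ) ≤ Real.exp W := by
      have := Real.add_one_le_exp (W : ℝ)
      linarith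
    have h2 : Real.exp (2 * W) = Real.exp W ^ 2 := by
      rw [← Real.exp_nat_mul]
      norm_num
    rw [h2]
    exact pow_le_pow_left₀ (by linarith) h1 2
  have h2e : (2 : ℝ) ^ (4 * W + 4) ≤ Real.exp (4 * W + 4) := by
    have h1 : (2 : ℝ) ^ (4 * W + 4) ≤ Real.exp 1 ^ (4 * W + 4) :=
      pow_le_pow_left₀ (by norm_num) (by linarith) _
    rw [← Real.exp_nat_mul] at h1
    push_cast at h1
    rwa [mul_one] at h1
  have h4 : (4 : ℝ) ≤ Real.exp W * Real.exp (4 * W + 4) := by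
    rw [← Real.exp_add]
    have := Real.add_one_le_exp ((W : ℝ) + (4 * W + 4))
    linarith
  have h5 : Real.exp W * 2 ^ (4 * W + 4) + 4 ≤ Real.exp (5 * W + 5) := by
    have h6 : Real.exp W * 2 ^ (4 * W + 4) ≤ Real.exp W * Real.exp (4 * W + 4) :=
      mul_le_mul_of_nonneg_left h2e (Real.exp_pos _).le
    have h7 : Real.exp (5 * (W : ℝ) + 5) = Real.exp 1 * (Real.exp W * Real.exp (4 * W + 4)) := by
      rw [← Real.exp_add, ← Real.exp_add]
      congr 1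
      ring
    rw [h7]
    nlinarith
  calc 24 * (W : ℝ) ^ 2 * (Real.exp W * 2 ^ (4 * W + 4) + 4)
      ≤ Real.exp 4 * Real.exp (2 * W) * Real.exp (5 * W + 5) := by gcongr
    _ = Real.exp (7 * W + 9) := by
      rw [← Real.exp_add, ← Real.exp_add]
      congr 1
      ring

theorem classCb (ε : ℝ) (hε : 0 < ε) :
    ∃ τ₀ : ℝ, 0 < τ₀ ∧ ∃ δ : ℝ, 0 < δ ∧ ∃ l₀ : ℕ, ∀ (l W k μ ν θ' θ β : ℕ) (S : Finset ℕ),
      l₀ ≤ l → 1 ≤ W → (W : ℝ) ≤ τ₀ * l → ε * l ≤ θ → ε * l ≤ β → ConC l W μ ν θ' θ β →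
      (∀ n ∈ S, Idx n k ∧ n ≤ 2 ^ l ∧ 2 ^ (l - 1) < n ∧ DataC n l W k μ ν θ' θ β) →
      (#S : ℝ) ≤ (2 : ℝ) ^ ((1 / 2 - δ) * (l : ℝ)) := by
  obtain ⟨C, hC, hHM⟩ := HMs
  have hL : 0 < Real.log 2 := Real.log_pos (by norm_num)
  have hL1 : Real.log 2 ≤ 1 := by
    have := Real.log_two_lt_d9
    linarith
  have hLh : 1 / 2 ≤ Real.log 2 := by
    have := Real.log_two_gt_d9
    linarith
  obtain ⟨κ, hκ⟩ : ∃ κ : ℕ, κ = ⌈12 / ε⌉₊ + 8 := ⟨_, rfl⟩
  have hκ8 : 8 ≤ κ := by omega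
  have hκR : 12 / ε ≤ κ := by
    have h1 : 12 / ε ≤ (⌈12 / ε⌉₊ : ℝ) := Nat.le_ceil _
    rw [hκ]
    push_cast
    linarith
  obtain ⟨s, hs⟩ : ∃ s : ℕ, s = κ ^ 3 := ⟨_, rfl⟩
  have hs1 : 1 ≤ s := by
    rw [hs]
    exact Nat.one_le_pow _ _ (by omega)
  have hsR : (1 : ℝ) ≤ s := by exact_mod_cast hs1
  have hs0 : (0 : ℝ) < s := by linarith
  obtain ⟨l₁, hl₁⟩ : ∃ l₁ : ℕ, 8 / ε + (11 + C * (κ : ℝ) ^ 10) * (400 * s) / ε + 4 ≤ l₁ :=
    exists_nat_ge _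
  refine ⟨min (ε / (4000 * s)) (1 / 4), lt_min (by positivity) (by norm_num), ε / (400 * s),
    by positivity, l₁, ?_⟩
  intro l W k μ ν θ' θ β S hl hW hWl hθl hβl hcon hS
  have hWR : (1 : ℝ) ≤ W := by exact_mod_cast hW
  have hW0 : (0 : ℝ) < W := by linarith
  have hlR : 8 / ε + (11 + C * (κ : ℝ) ^ 10) * (400 * s) / ε + 4 ≤ (l : ℝ) :=
    hl₁.trans (by exact_mod_cast hl)
  have hp1 : 0 < 8 / ε := by positivity
  have hp2 : 0 < (11 + C * (κ : ℝ) ^ 10) * (400 * s) / ε := by positivity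
  have hl0 : (0 : ℝ) < l := by linarith
  have hεl : 8 ≤ ε * l := by
    have h1 : 8 / ε ≤ (l : ℝ) := by linarith
    rw [div_le_iff₀ hε] at h1
    linarith
  have hconst : 11 + C * (κ : ℝ) ^ 10 ≤ ε * l / (400 * s) := by
    have h1 : (11 + C * (κ : ℝ) ^ 10) * (400 * s) / ε ≤ (l : ℝ) := by linarith
    rw [div_le_iff₀ hε] at h1
    rw [le_div_iff₀ (by positivity)]
    linarith
  have hW4 : (W : ℝ) ≤ 1 / 4 * l :=
    hWl.trans (mul_le_mul_of_nonneg_right (min_le_right _ _) hl0.le)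
  have hWs : 10 * (W : ℝ) ≤ ε * l / (400 * s) := by
    have h1 : (W : ℝ) ≤ ε / (4000 * s) * l :=
      hWl.trans (mul_le_mul_of_nonneg_right (min_le_left _ _) hl0.le)
    calc 10 * (W : ℝ) ≤ 10 * (ε / (4000 * s) * l) := by linarith
      _ = ε * l / (400 * s) := by
        field_simp
        norm_num
  have hθ8 : 8 ≤ θ := by
    have : (8 : ℝ) ≤ θ := by linarith
    exact_mod_cast this
  have hβle : (β : ℝ) ≤ l := by exact_mod_cast hcon.le
  set R : ℝ := (2 : ℝ) ^ (((β : ℝ) - θ') / 2) * Real.exp W with hR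
  have hR0 : 0 ≤ R := by positivity
  have hRexp : R = Real.exp (((β : ℝ) - θ') / 2 * Real.log 2 + W) := by
    rw [hR, cc_exp', ← Real.exp_add]
  have hθ'0 : (0 : ℝ) ≤ θ' := Nat.cast_nonneg _
  have hβ0 : (0 : ℝ) ≤ β := Nat.cast_nonneg _
  have hθ0 : (0 : ℝ) ≤ θ := Nat.cast_nonneg _
  obtain ⟨N, hNdef⟩ : ∃ N : ℕ, N = 2 ^ (β + 4 * W + 4) := ⟨_, rfl⟩
  have hN1 : 1 ≤ N := by
    rw [hNdef]
    exact Nat.one_le_two_pow
  have hNexp : (N : ℝ) = Real.exp (((β : ℝ) + 4 * W + 4) * Real.log 2) := by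
    rw [hNdef]
    push_cast
    rw [cc_exp]
    push_cast
    rfl
  -- injectivity
  have hN : 2 * R ^ 2 ≤ (N : ℝ) := by
    have e2 : (2 : ℝ) = Real.exp (Real.log 2) := (Real.exp_log (by norm_num)).symm
    rw [hNexp, hRexp, ← Real.exp_nat_mul]
    nth_rewrite 1 [e2]
    rw [← Real.exp_add]
    apply Real.exp_le_exp.2
    push_cast
    nlinarith
  have hinj := cc_inj R hR0 N hN
  -- HM
  have hJ : (Js (Qs θ) (psi N) s : ℝ) ≤ Real.exp (C * (κ : ℝ) ^ 10 +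
      4 * s * Real.log 2 + θ * Real.log 2 * (2 * s + 11 / 8) -
        ((β : ℝ) + 4 * W + 4) * Real.log 2) := by
    rw [cc_js, hs]
    have h1 := hHM κ (2 ^ θ) N 2 hκ8 (by
        calc 256 = 2 ^ 8 := by norm_num
          _ ≤ 2 ^ θ := Nat.pow_le_pow_right (by norm_num) hθ8) hN1 (by norm_num) (by
        rw [hNexp]
        push_cast
        rw [cc_exp, ← Real.exp_mul]
        apply Real.exp_le_exp.2
        have h2 : (β : ℝ) + 4 * W + 4 ≤ 3 * l := by linarith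
        have h3 : 3 * (l : ℝ) ≤ θ * (((κ : ℝ) + 2) / 4) := by
          have h4 : 12 ≤ ε * κ := by
            rw [div_le_iff₀ hε] at hκR
            linarith
          have h5 : ε * l * κ ≤ θ * κ := mul_le_mul_of_nonneg_right hθl (Nat.cast_nonneg _)
          nlinarith
        have h6 : ((β : ℝ) + 4 * W + 4) * Real.log 2 ≤ θ * (((κ : ℝ) + 2) / 4) * Real.log 2 :=
          mul_le_mul_of_nonneg_right (h2.trans h3) hL.le
        linarith) (Qs θ) (by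
        intro q hq
        unfold Qs at hq
        rw [mem_filter, mem_Ico] at hq
        rw [mem_Icc]
        refine ⟨hq.1.1, ?_⟩
        have : 2 ^ (θ + 1) = 2 * 2 ^ θ := by ring
        omega)
    refine h1.trans (le_of_eq ?_)
    rw [hNexp]
    push_cast
    rw [cc_exp (4 * κ ^ 3), cc_exp θ, ← Real.exp_mul, ← Real.exp_add, ← Real.exp_add,
      ← Real.exp_sub]
    congr 1
    push_cast
    ring
  -- the bound for one level
  set M₀ : ℝ := R * Real.exp ((((β : ℝ) - θ') / 2 * Real.log 2 + W +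
    (C * (κ : ℝ) ^ 10 + 4 * s * Real.log 2 + θ * Real.log 2 * (2 * s + 11 / 8) -
      ((β : ℝ) + 4 * W + 4) * Real.log 2)) * (1 / (2 * (s : ℝ)))) with hM₀
  have hlevel : ∀ u : ℤ, (#{z ∈ Qs θ ×ˢ Bs R ×ˢ Bs R |
      psi N z.1 + psi N z.2.1 + psi N z.2.2 = u} : ℝ) ≤ M₀ := by
    intro u
    refine (level_le _ _ _ s hs1 hinj u).trans ?_
    have hc := cc_card R hR0
    rw [hM₀, Real.exp_mul, Real.exp_add, ← hRexp]
    refine mul_le_mul hc ?_ (by positivity) hR0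
    refine Real.rpow_le_rpow (by positivity) ?_ (by positivity)
    exact mul_le_mul hc hJ (Nat.cast_nonneg _) hR0
  have hM₀0 : 0 ≤ M₀ := by
    rw [hM₀]
    positivity
  have hwN : Real.exp W * 2 ^ (4 * W + 4) / (N : ℝ) = Real.exp W / (2 : ℝ) ^ β := by
    rw [hNdef]
    push_cast
    have h1 : (2 : ℝ) ^ (β + 4 * W + 4) = 2 ^ β * 2 ^ (4 * W + 4) := by
      rw [← pow_add]
      congr 1
    rw [h1]
    field_simp
  have hcount := card_S_leC l W k μ ν θ' θ β S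
    (fun n hn => ⟨(hS n hn).1, (hS n hn).2.1, (hS n hn).2.2.2⟩)
    ((Real.exp W * 2 ^ (4 * W + 4) + 4) * M₀)
    (fun v T hT => window_le (Qs θ) (Bs R) N hN1 v
      (Real.exp W * 2 ^ (4 * W + 4)) M₀ (by positivity) hlevel T (by
        rw [hwN]
        exact hT))
  have hLs := card_Lset k W (2 ^ μ) ((2 : ℝ) ^ θ') (by omega) (one_le_pow₀ (by norm_num)) (by
    have h1 := hcon.grow
    push_cast
    exact h1)
  have hsqrt : Real.sqrt ((2 : ℝ) ^ θ') = Real.exp (θ' * Real.log 2 / 2) := by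
    rw [cc_exp, Real.exp_half]
  have hwin := cc_window W hW
  obtain ⟨a, ha⟩ : ∃ a : ℝ, a = 7 * (W : ℝ) + 9 := ⟨_, rfl⟩
  rw [← ha] at hwin
  have htot : (#S : ℝ) ≤ Real.exp (a +
      μ * Real.log 2 - θ' * Real.log 2 / 2 + ν * Real.log 2 +
      (((β : ℝ) - θ') / 2 * Real.log 2 + W) +
      ((((β : ℝ) - θ') / 2 * Real.log 2 + W +
    (C * (κ : ℝ) ^ 10 + 4 * s * Real.log 2 + θ * Real.log 2 * (2 * s + 11 / 8) -
      ((β : ℝ) + 4 * W + 4) * Real.log 2)) * (1 / (2 * (s : ℝ))))) := by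
    refine hcount.trans ?_
    have h1 : (#(Lset k W ((2 : ℝ) ^ θ') (2 ^ μ)) : ℝ) ≤
        24 * (W : ℝ) ^ 2 * Real.exp (μ * Real.log 2) / Real.exp (θ' * Real.log 2 / 2) := by
      refine hLs.trans (le_of_eq ?_)
      rw [hsqrt, ← cc_exp]
      push_cast
      ring
    calc (#(Lset k W ((2 : ℝ) ^ θ') (2 ^ μ)) : ℝ) * 2 ^ ν *
          ((Real.exp W * 2 ^ (4 * W + 4) + 4) * M₀)
        ≤ 24 * (W : ℝ) ^ 2 * Real.exp (μ * Real.log 2) / Real.exp (θ' * Real.log 2 / 2) *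
          2 ^ ν * ((Real.exp W * 2 ^ (4 * W + 4) + 4) * M₀) := by
          apply mul_le_mul_of_nonneg_right _ (by positivity)
          exact mul_le_mul_of_nonneg_right h1 (by positivity)
      _ = (24 * (W : ℝ) ^ 2 * (Real.exp W * 2 ^ (4 * W + 4) + 4)) *
          (Real.exp (μ * Real.log 2) / Real.exp (θ' * Real.log 2 / 2) * 2 ^ ν * M₀) := by ring
      _ ≤ Real.exp a *
          (Real.exp (μ * Real.log 2) / Real.exp (θ' * Real.log 2 / 2) * 2 ^ ν * M₀) :=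
          mul_le_mul_of_nonneg_right hwin (by positivity)
      _ = _ := by
          rw [Real.exp_add, Real.exp_add, Real.exp_add, Real.exp_sub, Real.exp_add,
            hM₀, ← hRexp, ← cc_exp ν]
          ring
  refine htot.trans ?_
  rw [cc_exp']
  apply Real.exp_le_exp.2
  have hsize := hcon.size
  have hthird := hcon.third
  have hexp : (((β : ℝ) - θ') / 2 * Real.log 2 + W +
    (C * (κ : ℝ) ^ 10 + 4 * s * Real.log 2 + θ * Real.log 2 * (2 * s + 11 / 8) -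
      ((β : ℝ) + 4 * W + 4) * Real.log 2)) * (1 / (2 * (s : ℝ))) =
      2 * Real.log 2 + θ * Real.log 2 +
      (((β : ℝ) - θ') / 2 * Real.log 2 + W + C * (κ : ℝ) ^ 10 + 11 / 8 * (θ * Real.log 2) -
        ((β : ℝ) + 4 * W + 4) * Real.log 2) / (2 * (s : ℝ)) := by
    field_simp
    ring
  rw [hexp]
  -- the last fraction
  have hfrac : (((β : ℝ) - θ') / 2 * Real.log 2 + W + C * (κ : ℝ) ^ 10 +
      11 / 8 * (θ * Real.log 2) - ((β : ℝ) + 4 * W + 4) * Real.log 2) / (2 * (s : ℝ)) ≤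
      W + C * (κ : ℝ) ^ 10 - ε * l / (96 * s) := by
    have h1 : ((β : ℝ) - θ') / 2 * Real.log 2 + W + C * (κ : ℝ) ^ 10 +
      11 / 8 * (θ * Real.log 2) - ((β : ℝ) + 4 * W + 4) * Real.log 2 ≤
        W + C * (κ : ℝ) ^ 10 - ε * l / 48 := by
      have h2 : 11 / 8 * ((θ : ℝ) * Real.log 2) ≤ 11 / 24 * ((β + W) * Real.log 2) := by
        have := mul_le_mul_of_nonneg_right hthird hL.le
        linarith
      have h3 : 0 ≤ (θ' : ℝ) * Real.log 2 := by positivity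
      have h4 : 0 ≤ (W : ℝ) * Real.log 2 := by positivity
      have h5 : (β : ℝ) * (1 / 2) ≤ β * Real.log 2 := mul_le_mul_of_nonneg_left hLh hβ0
      nlinarith
    have h6 : 0 ≤ (W : ℝ) + C * (κ : ℝ) ^ 10 := by positivity
    rw [div_le_iff₀ (by positivity)]
    have h7 : ε * l / (96 * s) * (2 * (s : ℝ)) = ε * l / 48 := by
      field_simp
      norm_num
    have h8 : ((W : ℝ) + C * (κ : ℝ) ^ 10) * 1 ≤ ((W : ℝ) + C * (κ : ℝ) ^ 10) * (2 * s) :=
      mul_le_mul_of_nonneg_left (by linarith) h6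
    calc _ ≤ W + C * (κ : ℝ) ^ 10 - ε * l / 48 := h1
      _ ≤ (W + C * (κ : ℝ) ^ 10) * (2 * s) - ε * l / (96 * s) * (2 * (s : ℝ)) := by
        rw [h7]
        linarith
      _ = (W + C * (κ : ℝ) ^ 10 - ε * l / (96 * s)) * (2 * (s : ℝ)) := by ring
  have hsizeL : ((μ : ℝ) + ν + θ) * Real.log 2 ≤
      ((l : ℝ) / 2 - (β : ℝ) / 2 + θ' + W) * Real.log 2 :=
    mul_le_mul_of_nonneg_right hsize hL.le
  have hWL : (W : ℝ) * Real.log 2 ≤ W := by nlinarith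
  have hδl : ε / (400 * s) * l * Real.log 2 ≤ ε * l / (400 * s) := by
    have h1 : ε / (400 * s) * l * Real.log 2 ≤ ε / (400 * s) * l * 1 :=
      mul_le_mul_of_nonneg_left hL1 (by positivity)
    calc _ ≤ ε / (400 * s) * l * 1 := h1
      _ = ε * l / (400 * s) := by ring
  have h96 : 3 * (ε * l / (400 * s)) ≤ ε * l / (96 * s) := by
    rw [← mul_div_assoc, div_le_div_iff₀ (by positivity) (by positivity)]
    have : 0 < ε * l * s := by positivity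
    nlinarith
  nlinarith

end Pool.Agent.Helper77.PS
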