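import Mathlib
import Pool.Agent.Helper77.PS.Blk2Of
import Pool.Agent.Helper77.PS.ClassCb
import Pool.Agent.Helper10.PS.ClassA
import Pool.Agent.Helper6.PS.ClusterS
import Pool.Agent.Helper33.PS.Bridge
import Pool.Agent.Helper47.PS.ToA
import Pool.Agent.Helper47.PS.ToC

/-!
# PS-6: one dyadic block
-/

namespace Pool.Agent.Helper58.PS

open Finset Pool.Agent.Helper6.Lehmer Pool.Agent.Helper6.LehmerCount Pool.Agent.Helper58.LT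
open Pool.Agent.Helper6.PW

theorem blk2 (ε : ℝ) (hε : 0 < ε) (hε4 : ε ≤ 1 / 4) (U : ℝ) (hU : 1 ≤ U) :
    ∃ δ : ℝ, 0 < δ ∧ ∃ l₀ : ℕ, ∀ l b : ℕ,
    l₀ ≤ l → (l : ℝ) ≤ U * b → ∀ S : Finset ℕ,
    (∀ n ∈ S, IsLehmer n ∧ 2 ^ (l - 1) < n ∧ n ≤ 2 ^ l ∧
      (∃ p, IsP n p ∧ 2 ^ b < p ∧ p ≤ 2 ^ (b + 1)) ∧ ¬ critB n l b ε) →
    (#S : ℝ) ≤ (2 : ℝ) ^ ((1 / 2 - δ) * (l : ℝ)) :=
  blk2_of (fun r hr ε hε => classA r hr ε hε) (fun ε hε => Pool.Agent.Helper77.PS.classCb ε hε)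
    (fun i hi => bridge_of clusterS toA toC i hi) ε hε hε4 U hU

end Pool.Agent.Helper58.PS
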